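import Mathlib

set_option autoImplicit false

/-!
# The equality problem in varieties of associative algebras: definitions
-/

namespace Pool.Agent.Hp6.EQ

universe u v

/-- A nonempty word in the variables `x 0, x 1, x 2, …`: the first letter and the other letters. -/
abbrev Word : Type := ℕ × List ℕ

/-- The rational number `(a - b) / (c + 1)` coded by `(a, b, c)`. -/
def coef (c : ℕ × ℕ × ℕ) : ℚ := ((c.1 : ℚ) - c.2.1) / (c.2.2 + 1)

/-- A noncommutative polynomial without constant term with rational coefficients: a formal sum of
multiples of nonempty words. -/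
abbrev Poly : Type := List ((ℕ × ℕ × ℕ) × Word)

/-- A quasi-identity: a list of premises and a conclusion. -/
abbrev QuasiId : Type := List Poly × Poly

section

variable {A : Type u} [NonUnitalRing A]

/-- The value of a nonempty word. -/
def word (x : ℕ → A) (w : Word) : A := w.2.foldl (fun a i => a * x i) (x w.1)

/-- The value of a formal sum of multiples of nonempty words. -/
def value {F : Type v} [Field F] [Module F A] (x : ℕ → A) (f : List (F × Word)) : A :=
  (f.map fun t => t.1 • word x t.2).sum

/-- The value of a polynomial with rational coefficients in an algebra over a field `F`. -/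
def ev (F : Type v) [Field F] [Module F A] (x : ℕ → A) (f : Poly) : A :=
  value x (f.map fun t => (((coef t.1 : ℚ) : F), t.2))

/-- The product of a nonempty list of elements. -/
def nprod : List A → A
  | [] => 0
  | a :: l => l.foldl (fun b c => b * c) a

end

/-- The quasi-identity `Q` holds in the algebra `A` over `F`. -/
def Holds (F : Type v) [Field F] (A : Type u) [NonUnitalRing A] [Module F A] (Q : QuasiId) : Prop :=
  ∀ x : ℕ → A, (∀ f ∈ Q.1, ev F x f = 0) → ev F x Q.2 = 0

/-- The algebra `A` over `F` belongs to the variety `M(n)`: it satisfies every polynomial identity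
(with coefficients in `F`) of the algebra of `n × n` matrices over `F`. -/
def InM (F : Type v) [Field F] (n : ℕ) (A : Type u) [NonUnitalRing A] [Module F A] : Prop :=
  ∀ f : List (F × Word), (∀ X : ℕ → Matrix (Fin n) (Fin n) F, value X f = 0) →
    ∀ x : ℕ → A, value x f = 0

/-- The algebra `A` belongs to the variety `S(n)`: it satisfies the standard identity of
degree `n`. -/
def InS (n : ℕ) (A : Type u) [NonUnitalRing A] : Prop :=
  ∀ x : Fin n → A, ∑ σ : Equiv.Perm (Fin n),
    ((Equiv.Perm.sign σ : ℤˣ) : ℤ) • nprod (List.ofFn fun i => x (σ i)) = 0

/-- The quasi-identity `Q` holds in all algebras of the variety `M(n)`. -/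
def ValidM (F : Type u) [Field F] (n : ℕ) (Q : QuasiId) : Prop :=
  ∀ (A : Type u) [NonUnitalRing A] [Module F A] [IsScalarTower F A A] [SMulCommClass F A A],
    InM F n A → Holds F A Q

/-- The quasi-identity `Q` holds in all algebras of the variety `S(n)`. -/
def ValidS (F : Type u) [Field F] (n : ℕ) (Q : QuasiId) : Prop :=
  ∀ (A : Type u) [NonUnitalRing A] [Module F A] [IsScalarTower F A A] [SMulCommClass F A A],
    InS n A → Holds F A Q

end Pool.Agent.Hp6.EQ
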