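import Mathlib
import Pool.Agent.Hp6.EQ.Defs

set_option autoImplicit false

/-!
# The equality problem in varieties of associative algebras: basic facts on values
-/

namespace Pool.Agent.Hp6.EQ

/-! ## Basic facts -/

section hom

variable {A B : Type*} [NonUnitalRing A] [NonUnitalRing B]

theorem word_map (φ : A → B) (hφ : ∀ a b, φ (a * b) = φ a * φ b) (x : ℕ → A) (w : Word) :
    φ (word x w) = word (fun i => φ (x i)) w := by
  obtain ⟨i, l⟩ := w
  simp only [word]
  induction l using List.reverseRecOn with
  | nil => rfl
  | append_singleton l j ih => rw [List.foldl_concat, List.foldl_concat, hφ, ih]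

theorem value_map {F : Type*} [Field F] [Module F A] [Module F B] (φ : A →ₗ[F] B)
    (hφ : ∀ a b, φ (a * b) = φ a * φ b) (x : ℕ → A) (f : List (F × Word)) :
    φ (value x f) = value (fun i => φ (x i)) f := by
  unfold value
  rw [map_list_sum, List.map_map]
  congr 1
  refine List.map_congr_left fun t _ => ?_
  simp only [Function.comp, map_smul, word_map φ hφ]

theorem ev_map (F : Type*) [Field F] [Module F A] [Module F B] (φ : A →ₗ[F] B)
    (hφ : ∀ a b, φ (a * b) = φ a * φ b) (x : ℕ → A) (f : Poly) :
    φ (ev F x f) = ev F (fun i => φ (x i)) f := value_map φ hφ x _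

theorem nprod_map (φ : A → B) (h0 : φ 0 = 0) (hφ : ∀ a b, φ (a * b) = φ a * φ b) (l : List A) :
    φ (nprod l) = nprod (l.map φ) := by
  rcases l with _ | ⟨a, l⟩
  · exact h0
  · simp only [nprod, List.map_cons]
    induction l using List.reverseRecOn with
    | nil => rfl
    | append_singleton l j ih =>
      rw [List.foldl_concat, hφ, ih, List.map_append, List.map_singleton, List.foldl_concat]

end hom

section unital

variable {A : Type*} [Ring A]

theorem word_eq_prod (x : ℕ → A) (w : Word) : word x w = ((w.1 :: w.2).map x).prod := by
  obtain ⟨i, l⟩ := w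
  simp only [word]
  induction l using List.reverseRecOn with
  | nil => simp
  | append_singleton l j ih => rw [List.foldl_concat, ih]; simp [mul_assoc]

theorem nprod_eq_prod (l : List A) (hl : l ≠ []) : nprod l = l.prod := by
  rcases l with _ | ⟨a, l⟩
  · exact absurd rfl hl
  · simp only [nprod]
    induction l using List.reverseRecOn with
    | nil => simp
    | append_singleton l j ih => rw [List.foldl_concat, ih (by simp)]; simp [mul_assoc]

end unital

end Pool.Agent.Hp6.EQ
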