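import Mathlib
import Pool.Agent.Hp6.EQ.Basic

set_option autoImplicit false
set_option linter.unusedSimpArgs false

/-!
# Identities of matrix algebras hold in an algebra of triangular matrices
-/

namespace Pool.Agent.Hp6.EQ

open Matrix

variable {F : Type*} [Field F]

/-- `f` is an identity of `n × n` matrices over `F`. -/
def IsId (F : Type*) [Field F] (n : ℕ) (f : List (F × Word)) : Prop :=
  ∀ X : ℕ → Matrix (Fin n) (Fin n) F, value X f = 0

/-- identities of matrices over an infinite field hold for matrices over commutative algebras -/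
theorem IsId.comm [Infinite F] {n : ℕ} {f : List (F × Word)} (hf : IsId F n f) {C : Type*}
    [CommRing C] [Algebra F C] (X : ℕ → Matrix (Fin n) (Fin n) C) : value X f = 0 := by
  let R := MvPolynomial (ℕ × Fin n × Fin n) F
  let G : ℕ → Matrix (Fin n) (Fin n) R := fun k => Matrix.of fun i j => MvPolynomial.X (k, i, j)
  have hG : value G f = 0 := by
    ext1 i j
    apply MvPolynomial.funext
    intro a
    let φ : Matrix (Fin n) (Fin n) R →ₐ[F] Matrix (Fin n) (Fin n) F :=
      (MvPolynomial.aeval a).mapMatrix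
    have h1 := value_map φ.toLinearMap (fun a b => map_mul φ a b) G f
    rw [hf] at h1
    have h2 := congrFun (congrFun h1 i) j
    simp only [AlgHom.toLinearMap_apply, φ, AlgHom.mapMatrix_apply, Matrix.map_apply,
      Matrix.zero_apply] at h2
    rw [Matrix.zero_apply, map_zero]
    rw [← h2, MvPolynomial.aeval_def, MvPolynomial.eval, MvPolynomial.coe_eval₂Hom]
    rfl
  let ψ : Matrix (Fin n) (Fin n) R →ₐ[F] Matrix (Fin n) (Fin n) C :=
    (MvPolynomial.aeval (fun p : ℕ × Fin n × Fin n => X p.1 p.2.1 p.2.2)).mapMatrix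
  have h1 := value_map ψ.toLinearMap (fun a b => map_mul ψ a b) G f
  rw [hG, map_zero] at h1
  rw [h1]
  congr 1
  funext k
  ext i j
  simp [ψ, G]

/-- identities of `n × n` matrices with `3 ≤ n` are identities of `3 × 3` matrices -/
theorem IsId.three {n : ℕ} (hn : 3 ≤ n) {f : List (F × Word)} (hf : IsId F n f) : IsId F 3 f := by
  obtain ⟨k, rfl⟩ := Nat.exists_eq_add_of_le hn
  intro X
  let ι : Matrix (Fin 3) (Fin 3) F →ₗ[F] Matrix (Fin (3 + k)) (Fin (3 + k)) F :=
    { toFun := fun Z => (fromBlocks Z 0 0 0).submatrix finSumFinEquiv.symm finSumFinEquiv.symm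
      map_add' := by
        intro Z W
        ext i j
        rcases h1 : finSumFinEquiv.symm i with a | a <;>
          rcases h2 : finSumFinEquiv.symm j with b | b <;> simp [h1, h2]
      map_smul' := by
        intro c Z
        ext i j
        rcases h1 : finSumFinEquiv.symm i with a | a <;>
          rcases h2 : finSumFinEquiv.symm j with b | b <;> simp [h1, h2] }
  have hι : ∀ Z W, ι (Z * W) = ι Z * ι W := by
    intro Z W
    change (fromBlocks (Z * W) 0 0 0).submatrix _ _ = (fromBlocks Z 0 0 0).submatrix _ _ *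
      (fromBlocks W 0 0 0).submatrix _ _
    rw [Matrix.submatrix_mul_equiv, fromBlocks_multiply]
    simp
  have h1 := value_map ι hι X f
  rw [hf] at h1
  ext i j
  have h2 := congrFun (congrFun h1 (finSumFinEquiv (.inl i))) (finSumFinEquiv (.inl j))
  simpa [ι] using h2

section tri

variable {K : Type*} [CommRing K]

/-- upper triangular matrices of order four with two zeros on the diagonal -/
structure Tri (Z : Matrix (Fin 4) (Fin 4) K) : Prop where
  h00 : Z 0 0 = 0
  h33 : Z 3 3 = 0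
  h10 : Z 1 0 = 0
  h20 : Z 2 0 = 0
  h30 : Z 3 0 = 0
  h21 : Z 2 1 = 0
  h31 : Z 3 1 = 0
  h32 : Z 3 2 = 0

/-- a triangular matrix of order four and a matrix of order three over the dual numbers -/
structure Rel (Z : Matrix (Fin 4) (Fin 4) K) (Y : Matrix (Fin 3) (Fin 3) (DualNumber K)) :
    Prop where
  tri : Tri Z
  f00 : (Y 0 0).fst = 0
  f01 : (Y 0 1).fst = 0
  f02 : (Y 0 2).fst = 0
  s00 : (Y 0 0).snd = Z 0 3
  s01 : (Y 0 1).snd = Z 0 1
  s02 : (Y 0 2).snd = Z 0 2
  f10 : (Y 1 0).fst = Z 1 3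
  f11 : (Y 1 1).fst = Z 1 1
  f12 : (Y 1 2).fst = Z 1 2
  f20 : (Y 2 0).fst = Z 2 3
  f21 : (Y 2 1).fst = Z 2 1
  f22 : (Y 2 2).fst = Z 2 2

theorem Tri.zero : Tri (0 : Matrix (Fin 4) (Fin 4) K) := by
  constructor <;> simp

theorem Tri.add {Z W : Matrix (Fin 4) (Fin 4) K} (h : Tri Z) (h' : Tri W) : Tri (Z + W) := by
  constructor <;> simp [h.h00, h.h33, h.h10, h.h20, h.h30, h.h21, h.h31, h.h32,
    h'.h00, h'.h33, h'.h10, h'.h20, h'.h30, h'.h21, h'.h31, h'.h32]

theorem Tri.smul [Algebra F K] (c : F) {Z : Matrix (Fin 4) (Fin 4) K} (h : Tri Z) :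
    Tri (c • Z) := by
  constructor <;> simp [h.h00, h.h33, h.h10, h.h20, h.h30, h.h21, h.h31, h.h32]

theorem Tri.mul {Z W : Matrix (Fin 4) (Fin 4) K} (h : Tri Z) (h' : Tri W) : Tri (Z * W) := by
  constructor <;> simp [Matrix.mul_apply, Fin.sum_univ_four,
    h.h00, h.h33, h.h10, h.h20, h.h30, h.h21, h.h31, h.h32,
    h'.h00, h'.h33, h'.h10, h'.h20, h'.h30, h'.h21, h'.h31, h'.h32]

theorem Rel.zero : Rel (0 : Matrix (Fin 4) (Fin 4) K) 0 := by
  constructor <;> first | exact Tri.zero | simp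

theorem Rel.add {Z Z' : Matrix (Fin 4) (Fin 4) K} {Y Y' : Matrix (Fin 3) (Fin 3) (DualNumber K)}
    (h : Rel Z Y) (h' : Rel Z' Y') : Rel (Z + Z') (Y + Y') := by
  constructor
  · exact h.tri.add h'.tri
  all_goals simp [h.f00, h.f01, h.f02, h.s00, h.s01, h.s02, h.f10, h.f11, h.f12, h.f20, h.f21,
    h.f22, h'.f00, h'.f01, h'.f02, h'.s00, h'.s01, h'.s02, h'.f10, h'.f11, h'.f12, h'.f20, h'.f21,
    h'.f22]

theorem Rel.smul [Algebra F K] (c : F) {Z : Matrix (Fin 4) (Fin 4) K}
    {Y : Matrix (Fin 3) (Fin 3) (DualNumber K)} (h : Rel Z Y) : Rel (c • Z) (c • Y) := by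
  constructor
  · exact h.tri.smul c
  all_goals simp [h.f00, h.f01, h.f02, h.s00, h.s01, h.s02, h.f10, h.f11, h.f12, h.f20, h.f21,
    h.f22]

theorem Rel.mul {Z Z' : Matrix (Fin 4) (Fin 4) K} {Y Y' : Matrix (Fin 3) (Fin 3) (DualNumber K)}
    (h : Rel Z Y) (h' : Rel Z' Y') : Rel (Z * Z') (Y * Y') := by
  have t := h.tri
  have t' := h'.tri
  constructor
  · exact h.tri.mul h'.tri
  all_goals
    simp only [Matrix.mul_apply, Fin.sum_univ_four, Fin.sum_univ_three, TrivSqZeroExt.fst_add,
      TrivSqZeroExt.snd_add, TrivSqZeroExt.fst_mul, TrivSqZeroExt.snd_mul, h.f00, h.f01, h.f02,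
      h.s00, h.s01, h.s02, h.f10, h.f11, h.f12, h.f20, h.f21,
      h.f22, h'.f00, h'.f01, h'.f02, h'.s00, h'.s01, h'.s02, h'.f10, h'.f11, h'.f12, h'.f20,
      h'.f21, h'.f22, t.h00, t.h33, t.h10, t.h20, t.h30, t.h21, t.h31, t.h32,
      t'.h00, t'.h33, t'.h10, t'.h20, t'.h30, t'.h21, t'.h31, t'.h32, smul_eq_mul,
      MulOpposite.op_zero, MulOpposite.smul_eq_mul_unop, MulOpposite.unop_op, MulOpposite.unop_zero]
    try ring

/-- the matrix over the dual numbers which belongs to a triangular matrix -/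
def dual (Z : Matrix (Fin 4) (Fin 4) K) : Matrix (Fin 3) (Fin 3) (DualNumber K) :=
  !![TrivSqZeroExt.inr (Z 0 3), TrivSqZeroExt.inr (Z 0 1), TrivSqZeroExt.inr (Z 0 2);
     TrivSqZeroExt.inl (Z 1 3), TrivSqZeroExt.inl (Z 1 1), TrivSqZeroExt.inl (Z 1 2);
     TrivSqZeroExt.inl (Z 2 3), TrivSqZeroExt.inl (Z 2 1), TrivSqZeroExt.inl (Z 2 2)]

theorem rel_dual {Z : Matrix (Fin 4) (Fin 4) K} (h : Tri Z) : Rel Z (dual Z) := by
  constructor
  · exact h
  all_goals simp [dual]

variable [Algebra F K]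

theorem rel_word {X : ℕ → Matrix (Fin 4) (Fin 4) K} (hX : ∀ i, Tri (X i)) (w : Word) :
    Rel (word X w) (word (fun i => dual (X i)) w) := by
  obtain ⟨i, l⟩ := w
  simp only [word]
  induction l using List.reverseRecOn with
  | nil => exact rel_dual (hX i)
  | append_singleton l j ih =>
    rw [List.foldl_concat, List.foldl_concat]
    exact ih.mul (rel_dual (hX j))

theorem rel_value {X : ℕ → Matrix (Fin 4) (Fin 4) K} (hX : ∀ i, Tri (X i))
    (f : List (F × Word)) : Rel (value X f) (value (fun i => dual (X i)) f) := by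
  unfold value
  induction f with
  | nil => exact Rel.zero
  | cons t f ih =>
    rw [List.map_cons, List.map_cons, List.sum_cons, List.sum_cons]
    exact ((rel_word hX t.2).smul t.1).add ih

/-- triangular matrices satisfy the identities of matrices of order three -/
theorem IsId.tri [Infinite F] {f : List (F × Word)} (hf : IsId F 3 f)
    {X : ℕ → Matrix (Fin 4) (Fin 4) K} (hX : ∀ i, Tri (X i)) : value X f = 0 := by
  have h := rel_value hX f
  rw [hf.comm] at h
  have t := h.tri
  have e01 := h.s01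
  have e02 := h.s02
  have e03 := h.s00
  have e11 := h.f11
  have e12 := h.f12
  have e13 := h.f10
  have e22 := h.f22
  have e23 := h.f20
  simp only [Matrix.zero_apply, TrivSqZeroExt.snd_zero, TrivSqZeroExt.fst_zero] at e01 e02 e03 e11 e12 e13 e22 e23
  ext1 i j
  fin_cases i <;> fin_cases j
  · exact t.h00
  · exact e01.symm
  · exact e02.symm
  · exact e03.symm
  · exact t.h10
  · exact e11.symm
  · exact e12.symm
  · exact e13.symm
  · exact t.h20
  · exact t.h21
  · exact e22.symm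
  · exact e23.symm
  · exact t.h30
  · exact t.h31
  · exact t.h32
  · exact t.h33

end tri

end Pool.Agent.Hp6.EQ
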