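import Mathlib
import Pool.Agent.Hp6.EQ.Ident

set_option autoImplicit false
set_option linter.unusedSimpArgs false

/-!
# Triangular matrices of order four with two zeros on the diagonal satisfy the standard
identities of degree at least six
-/

namespace Pool.Agent.Hp6.EQ

open Matrix Finset

variable {K : Type*} [CommRing K]

/-- matrix units -/
def E (K : Type*) [CommRing K] (p : Fin 4 × Fin 4) : Matrix (Fin 4) (Fin 4) K :=
  Matrix.single p.1 p.2 1

/-- the positions of the entries of triangular matrices -/
def S : Finset (Fin 4 × Fin 4) := univ.filter fun p => p.1 ≤ p.2 ∧ p ≠ (0, 0) ∧ p ≠ (3, 3)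

theorem prod_E (p : Fin 4 × Fin 4) (l : List (Fin 4 × Fin 4)) :
    ((p :: l).map (E K)).prod = 0 ∨
      ((p :: l).IsChain (fun a b => a.2 = b.1) ∧ ∃ j, ((p :: l).map (E K)).prod = E K (p.1, j)) := by
  induction l generalizing p with
  | nil =>
    right
    refine ⟨List.isChain_singleton _, p.2, ?_⟩
    simp
  | cons q l ih =>
    rcases ih q with h | ⟨h, j, hj⟩
    · left
      rw [List.map_cons, List.prod_cons, h, mul_zero]
    · by_cases hpq : p.2 = q.1
      · right
        refine ⟨List.isChain_cons_cons.2 ⟨hpq, h⟩, j, ?_⟩
        rw [List.map_cons, List.prod_cons, hj]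
        unfold E
        rw [hpq]
        simp
      · left
        rw [List.map_cons, List.prod_cons, hj]
        unfold E
        exact Matrix.single_mul_single_of_ne _ _ _ _ hpq _

theorem chain_count (p : Fin 4 × Fin 4) (l : List (Fin 4 × Fin 4))
    (hc : (p :: l).IsChain (fun a b => a.2 = b.1)) (hS : ∀ q ∈ p :: l, q.1 ≤ q.2) :
    ((p :: l).filter (fun q => decide (q.1 < q.2))).length + (p.1 : ℕ) ≤ 3 := by
  induction l generalizing p with
  | nil =>
    have h1 := p.2.isLt
    have h2 := p.1.isLt
    by_cases h : p.1 < p.2
    · have h' : (p.1 : ℕ) < p.2 := h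
      simp only [List.filter_cons, h, decide_true, if_true, List.filter_nil, List.length_cons,
        List.length_nil]
      omega
    · simp only [List.filter_cons, h, decide_false, List.filter_nil, List.length_nil]
      simp
      omega
  | cons q l ih =>
    have h1 := ih q (List.isChain_cons_cons.1 hc).2 (fun r hr => hS r (List.mem_cons_of_mem _ hr))
    have h2 : (p.2 : ℕ) = q.1 := by rw [(List.isChain_cons_cons.1 hc).1]
    have h3 : (p.1 : ℕ) ≤ p.2 := hS p List.mem_cons_self
    rw [List.filter_cons]
    by_cases h : p.1 < p.2
    · have h' : (p.1 : ℕ) < p.2 := h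
      simp only [h, decide_true, if_true, List.length_cons]
      omega
    · simp only [h, decide_false]
      simp only [Bool.false_eq_true, if_false]
      omega

theorem length_le (p : Fin 4 × Fin 4) (l : List (Fin 4 × Fin 4))
    (hc : (p :: l).IsChain (fun a b => a.2 = b.1)) (hS : ∀ q ∈ p :: l, q ∈ S)
    (hn : (p :: l).Nodup) : (p :: l).length ≤ 5 := by
  have h1 := chain_count p l hc (fun q hq => (mem_filter.1 (hS q hq)).2.1)
  have h2 : ((p :: l).filter (fun q => !decide (q.1 < q.2))).length ≤ 2 := by
    have h3 : ((p :: l).filter (fun q => !decide (q.1 < q.2))).toFinset ⊆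
        ({(1, 1), (2, 2)} : Finset (Fin 4 × Fin 4)) := by
      intro q hq
      rw [List.mem_toFinset, List.mem_filter] at hq
      have h4 := hS q hq.1
      have h5 : ¬ q.1 < q.2 := by simpa using hq.2
      clear hq
      revert h4 h5
      unfold S
      revert q
      decide
    have h4 := card_le_card h3
    rw [List.toFinset_card_of_nodup (hn.filter _)] at h4
    exact h4.trans (by decide)
  have h3 := List.length_eq_length_filter_add (l := p :: l) (fun q => decide (q.1 < q.2))
  omega

theorem tri_sum {Z : Matrix (Fin 4) (Fin 4) K} (h : Tri Z) : Z = ∑ p ∈ S, Z p.1 p.2 • E K p := by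
  have h1 : ∑ p ∈ S, Z p.1 p.2 • E K p = ∑ p, Z p.1 p.2 • E K p := by
    refine sum_subset (subset_univ _) ?_
    intro p _ hp
    have h2 : Z p.1 p.2 = 0 := by
      obtain ⟨i, j⟩ := p
      have h3 : ¬ ((i ≤ j) ∧ (i, j) ≠ (0, 0) ∧ (i, j) ≠ (3, 3)) := by
        intro hh
        exact hp (mem_filter.2 ⟨mem_univ _, hh⟩)
      fin_cases i <;> fin_cases j
      · exact h.h00
      · exact absurd (by decide) h3
      · exact absurd (by decide) h3
      · exact absurd (by decide) h3
      · exact h.h10
      · exact absurd (by decide) h3
      · exact absurd (by decide) h3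
      · exact absurd (by decide) h3
      · exact h.h20
      · exact h.h21
      · exact absurd (by decide) h3
      · exact absurd (by decide) h3
      · exact h.h30
      · exact h.h31
      · exact h.h32
      · exact h.h33
    rw [h2, zero_smul]
  rw [h1, Fintype.sum_prod_type]
  ext i j
  simp [E, Matrix.sum_apply, Matrix.single_apply, Finset.sum_ite_eq, ite_and]

theorem std_tri {n : ℕ} (hn : 6 ≤ n) (x : Fin n → Matrix (Fin 4) (Fin 4) K)
    (hx : ∀ i, Tri (x i)) :
    ∑ σ : Equiv.Perm (Fin n), ((Equiv.Perm.sign σ : ℤˣ) : ℤ) •
      nprod (List.ofFn fun i => x (σ i)) = 0 := by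
  have hne : ∀ y : Fin n → Matrix (Fin 4) (Fin 4) K, List.ofFn y ≠ [] := by
    intro y h
    have := congrArg List.length h
    simp at this
    omega
  let m := MultilinearMap.mkPiAlgebraFin K n (Matrix (Fin 4) (Fin 4) K)
  have e1 : ∀ y : Fin n → Matrix (Fin 4) (Fin 4) K, MultilinearMap.alternatization m y =
      ∑ σ : Equiv.Perm (Fin n), ((Equiv.Perm.sign σ : ℤˣ) : ℤ) •
        nprod (List.ofFn fun i => y (σ i)) := by
    intro y
    rw [MultilinearMap.alternatization_apply]
    refine sum_congr rfl fun σ _ => ?_
    rw [nprod_eq_prod _ (hne _)]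
    rfl
  rw [← e1]
  have e2 : x = fun i => ∑ p ∈ S, (x i p.1 p.2 • E K p) := funext fun i => tri_sum (hx i)
  rw [e2]
  change (MultilinearMap.alternatization m).toMultilinearMap _ = 0
  rw [MultilinearMap.map_sum_finset]
  refine sum_eq_zero fun r hr => ?_
  rw [MultilinearMap.map_smul_univ]
  have e3 : (MultilinearMap.alternatization m).toMultilinearMap (fun i => E K (r i)) = 0 := by
    by_cases hinj : Function.Injective r
    · change MultilinearMap.alternatization m (fun i => E K (r i)) = 0
      rw [e1]
      refine sum_eq_zero fun σ _ => ?_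
      rw [nprod_eq_prod _ (hne _)]
      have e4 : List.ofFn (fun i => E K (r (σ i))) = (List.ofFn fun i => r (σ i)).map (E K) := by
        rw [List.map_ofFn]
        rfl
      rw [e4]
      rcases hl : (List.ofFn fun i => r (σ i)) with _ | ⟨p, l⟩
      · exfalso
        have := congrArg List.length hl
        simp at this
        omega
      · rcases prod_E (K := K) p l with h | ⟨h, _⟩
        · rw [h, smul_zero]
        · exfalso
          have h5 := length_le p l h (by
            intro q hq
            rw [← hl, List.mem_ofFn] at hq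
            obtain ⟨i, rfl⟩ := hq
            exact (Fintype.mem_piFinset.1 hr) _) (by
            rw [← hl, List.nodup_ofFn]
            exact hinj.comp σ.injective)
          rw [← hl, List.length_ofFn] at h5
          omega
    · unfold Function.Injective at hinj
      push Not at hinj
      obtain ⟨i, j, hij, hne'⟩ := hinj
      exact (MultilinearMap.alternatization m).map_eq_zero_of_eq _ (by rw [hij]) hne'
  rw [e3, smul_zero]

end Pool.Agent.Hp6.EQ
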