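import Mathlib
import Pool.Agent.Hp6.EQ.Std

set_option autoImplicit false
set_option linter.unusedSimpArgs false

/-!
# The algebra in which a word is not zero
-/

namespace Pool.Agent.Hp6.EQ

open Matrix

universe u

/-! ## The largest ideal in the kernel of a linear functional -/

section syn

variable {F : Type*} [Field F] {B : Type*} [Ring B] [Algebra F B] (φ : B →ₗ[F] F)

/-- the largest two-sided ideal in the kernel of a functional -/
def syn : Ideal B where
  carrier := {x | ∀ u v, φ (u * x * v) = 0}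
  add_mem' := by
    intro a b ha hb u v
    rw [mul_add, add_mul, map_add, ha, hb, add_zero]
  zero_mem' := by
    intro u v
    simp
  smul_mem' := by
    intro c x hx u v
    rw [smul_eq_mul, ← mul_assoc]
    exact hx _ _

theorem mem_syn {x : B} : x ∈ syn φ ↔ ∀ u v, φ (u * x * v) = 0 := Iff.rfl

instance : (syn φ).IsTwoSided where
  mul_mem_of_left := by
    intro a b ha u v
    rw [← mul_assoc, mul_assoc _ b v]
    exact ha _ _

end syn

section model

variable {F : Type u} [Field F] {St : Type} [Fintype St] [DecidableEq St] (h : St → ℕ → ℕ → F)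

/-- coefficients -/
abbrev KK (F : Type u) [Field F] (St : Type) : Type u := St → MvPolynomial (Fin 2) F

/-- the first variable -/
noncomputable def xK : KK F St := fun _ => MvPolynomial.X 0

/-- the second variable -/
noncomputable def yK : KK F St := fun _ => MvPolynomial.X 1

/-- the idempotent of a state -/
noncomputable def mu (s : St) : KK F St := Pi.single s 1

/-- the functional -/
noncomputable def Phi : KK F St →ₗ[F] F :=
  ∑ s, ((MvPolynomial.basisMonomials (Fin 2) F).constr F (fun m => h s (m 0) (m 1))) ∘ₗ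
    (LinearMap.proj s)

theorem Phi_mono (s : St) (a b : ℕ) :
    Phi h (xK ^ a * mu s * yK ^ b) = h s a b := by
  unfold Phi
  rw [LinearMap.sum_apply, Finset.sum_eq_single s]
  · have e : (xK ^ a * mu s * yK ^ b : KK F St) s =
        MvPolynomial.basisMonomials (Fin 2) F (Finsupp.single 0 a + Finsupp.single 1 b) := by
      rw [MvPolynomial.coe_basisMonomials]
      simp only [Pi.mul_apply, Pi.pow_apply, xK, yK, mu, Pi.single_eq_same, mul_one]
      rw [MvPolynomial.X_pow_eq_monomial, MvPolynomial.X_pow_eq_monomial,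
        MvPolynomial.monomial_mul, mul_one]
    rw [LinearMap.comp_apply, LinearMap.proj_apply, e, Module.Basis.constr_basis]
    simp
  · intro t _ hts
    rw [LinearMap.comp_apply, LinearMap.proj_apply]
    have e : (xK ^ a * mu s * yK ^ b : KK F St) t = 0 := by
      simp [mu, hts]
    rw [e, map_zero]
  · intro hs
    exact absurd (Finset.mem_univ _) hs

/-- polynomials in the first variable -/
noncomputable def Kx (F : Type u) [Field F] (St : Type) : Subalgebra F (KK F St) :=
  (Polynomial.aeval (xK (F := F) (St := St))).range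

/-- polynomials in the second variable -/
noncomputable def Ky (F : Type u) [Field F] (St : Type) : Subalgebra F (KK F St) :=
  (Polynomial.aeval (yK (F := F) (St := St))).range

theorem Phi_zero {κ : KK F St} (hκ : ∀ a b, Phi h (xK ^ a * κ * yK ^ b) = 0)
    {U V : KK F St} (hU : U ∈ Kx F St) (hV : V ∈ Ky F St) : Phi h (U * κ * V) = 0 := by
  obtain ⟨p, rfl⟩ := hU
  obtain ⟨q, rfl⟩ := hV
  change Phi h (Polynomial.aeval xK p * κ * Polynomial.aeval yK q) = 0
  induction p using Polynomial.induction_on' with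
  | add p p' hp hp' =>
    rw [map_add, add_mul, add_mul, map_add, hp, hp', add_zero]
  | monomial n c =>
    induction q using Polynomial.induction_on' with
    | add q q' hq hq' =>
      rw [map_add, mul_add, map_add, hq, hq', add_zero]
    | monomial m d =>
      rw [Polynomial.aeval_monomial, Polynomial.aeval_monomial]
      have e : (algebraMap F (KK F St) c * xK ^ n * κ * (algebraMap F (KK F St) d * yK ^ m)) =
          (c * d) • (xK ^ n * κ * yK ^ m) := by
        rw [Algebra.smul_def, map_mul]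
        ring
      rw [e, map_smul, hκ, smul_zero]

/-- membership in the matrix algebra -/
structure Mem (Z : Matrix (Fin 4) (Fin 4) (KK F St)) : Prop where
  h10 : Z 1 0 = 0
  h20 : Z 2 0 = 0
  h30 : Z 3 0 = 0
  h21 : Z 2 1 = 0
  h31 : Z 3 1 = 0
  h32 : Z 3 2 = 0
  h00 : Z 0 0 ∈ (⊥ : Subalgebra F (KK F St))
  h33 : Z 3 3 ∈ (⊥ : Subalgebra F (KK F St))
  h01 : Z 0 1 ∈ Kx F St
  h11 : Z 1 1 ∈ Kx F St
  h22 : Z 2 2 ∈ Ky F St
  h23 : Z 2 3 ∈ Ky F St

/-- the algebra of matrices -/
noncomputable def SS (F : Type u) [Field F] (St : Type) :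
    Subalgebra F (Matrix (Fin 4) (Fin 4) (KK F St)) where
  carrier := {Z | Mem Z}
  mul_mem' := by
    intro Z W hZ hW
    constructor
    · simp [Matrix.mul_apply, Fin.sum_univ_four, hZ.h10, hZ.h20, hZ.h30, hZ.h21, hZ.h31, hZ.h32,
        hW.h10, hW.h20, hW.h30, hW.h21, hW.h31, hW.h32]
    · simp [Matrix.mul_apply, Fin.sum_univ_four, hZ.h10, hZ.h20, hZ.h30, hZ.h21, hZ.h31, hZ.h32,
        hW.h10, hW.h20, hW.h30, hW.h21, hW.h31, hW.h32]
    · simp [Matrix.mul_apply, Fin.sum_univ_four, hZ.h10, hZ.h20, hZ.h30, hZ.h21, hZ.h31, hZ.h32,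
        hW.h10, hW.h20, hW.h30, hW.h21, hW.h31, hW.h32]
    · simp [Matrix.mul_apply, Fin.sum_univ_four, hZ.h10, hZ.h20, hZ.h30, hZ.h21, hZ.h31, hZ.h32,
        hW.h10, hW.h20, hW.h30, hW.h21, hW.h31, hW.h32]
    · simp [Matrix.mul_apply, Fin.sum_univ_four, hZ.h10, hZ.h20, hZ.h30, hZ.h21, hZ.h31, hZ.h32,
        hW.h10, hW.h20, hW.h30, hW.h21, hW.h31, hW.h32]
    · simp [Matrix.mul_apply, Fin.sum_univ_four, hZ.h10, hZ.h20, hZ.h30, hZ.h21, hZ.h31, hZ.h32,
        hW.h10, hW.h20, hW.h30, hW.h21, hW.h31, hW.h32]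
    · rw [Matrix.mul_apply, Fin.sum_univ_four, hW.h10, hW.h20, hW.h30, mul_zero, mul_zero,
        mul_zero, add_zero, add_zero, add_zero]
      exact mul_mem hZ.h00 hW.h00
    · rw [Matrix.mul_apply, Fin.sum_univ_four, hZ.h30, hZ.h31, hZ.h32, zero_mul, zero_mul,
        zero_mul, zero_add, zero_add, zero_add]
      exact mul_mem hZ.h33 hW.h33
    · rw [Matrix.mul_apply, Fin.sum_univ_four, hW.h21, hW.h31, mul_zero, mul_zero, add_zero,
        add_zero]
      refine add_mem (mul_mem ?_ hW.h01) (mul_mem hZ.h01 hW.h11)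
      exact (bot_le : ⊥ ≤ Kx F St) hZ.h00
    · rw [Matrix.mul_apply, Fin.sum_univ_four, hZ.h10, hW.h21, hW.h31, mul_zero, mul_zero,
        zero_mul, add_zero, add_zero, zero_add]
      exact mul_mem hZ.h11 hW.h11
    · rw [Matrix.mul_apply, Fin.sum_univ_four, hZ.h20, hZ.h21, hW.h32, mul_zero, zero_mul,
        zero_mul, add_zero, zero_add, zero_add]
      exact mul_mem hZ.h22 hW.h22
    · rw [Matrix.mul_apply, Fin.sum_univ_four, hZ.h20, hZ.h21, zero_mul, zero_mul, zero_add,
        zero_add]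
      refine add_mem (mul_mem hZ.h22 hW.h23) (mul_mem hZ.h23 ?_)
      exact (bot_le : ⊥ ≤ Ky F St) hW.h33
  add_mem' := by
    intro Z W hZ hW
    constructor
    · simp [hZ.h10, hW.h10]
    · simp [hZ.h20, hW.h20]
    · simp [hZ.h30, hW.h30]
    · simp [hZ.h21, hW.h21]
    · simp [hZ.h31, hW.h31]
    · simp [hZ.h32, hW.h32]
    · exact add_mem hZ.h00 hW.h00
    · exact add_mem hZ.h33 hW.h33
    · exact add_mem hZ.h01 hW.h01
    · exact add_mem hZ.h11 hW.h11
    · exact add_mem hZ.h22 hW.h22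
    · exact add_mem hZ.h23 hW.h23
  algebraMap_mem' := by
    intro c
    have e : ∀ i : Fin 4, algebraMap F (Matrix (Fin 4) (Fin 4) (KK F St)) c i i =
        algebraMap F (KK F St) c := by
      intro i
      simp [Matrix.algebraMap_matrix_apply]
    have e' : ∀ i j : Fin 4, i ≠ j →
        algebraMap F (Matrix (Fin 4) (Fin 4) (KK F St)) c i j = 0 := by
      intro i j hij
      simp [Matrix.algebraMap_matrix_apply, hij]
    constructor
    · exact e' _ _ (by decide)
    · exact e' _ _ (by decide)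
    · exact e' _ _ (by decide)
    · exact e' _ _ (by decide)
    · exact e' _ _ (by decide)
    · exact e' _ _ (by decide)
    · rw [e]; exact Subalgebra.algebraMap_mem _ _
    · rw [e]; exact Subalgebra.algebraMap_mem _ _
    · rw [e' _ _ (by decide)]; exact zero_mem _
    · rw [e]; exact Subalgebra.algebraMap_mem _ _
    · rw [e]; exact Subalgebra.algebraMap_mem _ _
    · rw [e' _ _ (by decide)]; exact zero_mem _

/-- the functional on the algebra of matrices -/
noncomputable def phi : SS F St →ₗ[F] F where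
  toFun Z := Phi h (Z.1 0 3)
  map_add' := by
    intro Z W
    rw [← map_add]
    rfl
  map_smul' := by
    intro c Z
    rw [RingHom.id_apply, ← map_smul]
    rfl

/-- the non-unital algebra -/
noncomputable def AA : NonUnitalSubalgebra F (SS F St ⧸ syn (phi h)) where
  carrier := {z | ∃ Z : SS F St, Z.1 0 0 = 0 ∧ Z.1 3 3 = 0 ∧ Ideal.Quotient.mk _ Z = z}
  add_mem' := by
    rintro _ _ ⟨Z, h1, h2, rfl⟩ ⟨W, h3, h4, rfl⟩
    refine ⟨Z + W, ?_, ?_, map_add _ _ _⟩
    · change Z.1 0 0 + W.1 0 0 = 0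
      rw [h1, h3, add_zero]
    · change Z.1 3 3 + W.1 3 3 = 0
      rw [h2, h4, add_zero]
  zero_mem' := ⟨0, rfl, rfl, map_zero _⟩
  mul_mem' := by
    rintro _ _ ⟨Z, h1, h2, rfl⟩ ⟨W, h3, h4, rfl⟩
    refine ⟨Z * W, ?_, ?_, map_mul _ _ _⟩
    · change (Z.1 * W.1) 0 0 = 0
      have hW : Mem W.1 := W.2
      rw [Matrix.mul_apply, Fin.sum_univ_four, hW.h10, hW.h20, hW.h30, h1]
      simp
    · change (Z.1 * W.1) 3 3 = 0
      have hZ : Mem Z.1 := Z.2
      rw [Matrix.mul_apply, Fin.sum_univ_four, hZ.h30, hZ.h31, hZ.h32, h2]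
      simp
  smul_mem' := by
    rintro c _ ⟨Z, h1, h2, rfl⟩
    refine ⟨c • Z, ?_, ?_, rfl⟩
    · change c • Z.1 0 0 = 0
      rw [h1, smul_zero]
    · change c • Z.1 3 3 = 0
      rw [h2, smul_zero]

theorem tri_of {Z : SS F St} (h0 : Z.1 0 0 = 0) (h3 : Z.1 3 3 = 0) : Tri Z.1 := by
  have hZ : Mem Z.1 := Z.2
  exact ⟨h0, h3, hZ.h10, hZ.h20, hZ.h30, hZ.h21, hZ.h31, hZ.h32⟩

theorem AA_lift (x : AA h) : ∃ Z : SS F St, Tri Z.1 ∧ Ideal.Quotient.mk (syn (phi h)) Z = x.1 := by
  obtain ⟨Z, h1, h2, h3⟩ := x.2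
  exact ⟨Z, tri_of h1 h2, h3⟩

theorem AA_ident [Infinite F] {f : List (F × Word)} (hf : IsId F 3 f) (x : ℕ → AA h) :
    value x f = 0 := by
  choose Z hZ hZ' using fun i => AA_lift h (x i)
  have h1 : value (fun i => (Z i).1) f = 0 := hf.tri hZ
  have h2 : value Z f = 0 := by
    apply Subtype.ext
    have := value_map (SS F St).val.toLinearMap (fun a b => rfl) Z f
    exact this.trans h1
  have h3 := value_map (Ideal.Quotient.mkₐ F (syn (phi h))).toLinearMap
    (fun a b => map_mul (Ideal.Quotient.mkₐ F (syn (phi h))) a b) Z f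
  rw [h2, map_zero] at h3
  apply Subtype.ext
  let inc : AA h →ₗ[F] (SS F St ⧸ syn (phi h)) := (AA h).toSubmodule.subtype
  have h4 := value_map inc (fun a b => rfl) x f
  refine Eq.trans h4 ?_
  have e : (fun i => inc (x i)) =
      fun i => (Ideal.Quotient.mkₐ F (syn (phi h))).toLinearMap (Z i) := by
    funext i
    exact (hZ' i).symm
  rw [e, ← h3]
  rfl

theorem AA_std {n : ℕ} (hn : 6 ≤ n) : InS n (AA h) := by
  intro x
  choose Z hZ hZ' using fun i => AA_lift h (x i)
  have h1 := std_tri hn (fun i => (Z i).1) hZ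
  have h2 : ∑ σ : Equiv.Perm (Fin n), ((Equiv.Perm.sign σ : ℤˣ) : ℤ) •
      nprod (List.ofFn fun i => Z (σ i)) = 0 := by
    apply Subtype.ext
    refine Eq.trans ?_ h1
    change (SS F St).val _ = _
    rw [map_sum]
    refine Finset.sum_congr rfl fun σ _ => ?_
    rw [map_zsmul, nprod_map (SS F St).val (map_zero _) (fun a b => map_mul _ a b), List.map_ofFn]
    rfl
  have h3 := congrArg (Ideal.Quotient.mk (syn (phi h))) h2
  rw [map_sum, map_zero] at h3
  apply Subtype.ext
  refine Eq.trans ?_ h3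
  change (NonUnitalSubalgebraClass.subtype (AA h)) _ = _
  rw [map_sum]
  refine Finset.sum_congr rfl fun σ _ => ?_
  rw [map_zsmul, map_zsmul, nprod_map (NonUnitalSubalgebraClass.subtype (AA h)) (map_zero _)
    (fun a b => rfl),
    nprod_map (Ideal.Quotient.mk (syn (phi h))) (map_zero _) (fun a b => map_mul _ a b),
    List.map_ofFn, List.map_ofFn]
  congr 3
  funext i
  exact (hZ' _).symm

end model

end Pool.Agent.Hp6.EQ
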