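import Mathlib
import Pool.Agent.Hp6.EQ.Model

set_option autoImplicit false
set_option linter.unusedSimpArgs false

/-!
# Words in the generators
-/

namespace Pool.Agent.Hp6.EQ

open Matrix

universe u

/-- a nonempty list as a word -/
def toWord : List ℕ → Word
  | [] => (0, [])
  | a :: l => (a, l)

/-- the polynomial `w` -/
def mon (w : List ℕ) : Poly := [((1, 0, 0), toWord w)]

/-- the polynomial `w - w'` -/
def diff (w w' : List ℕ) : Poly := [((1, 0, 0), toWord w), ((0, 1, 0), toWord w')]

section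

variable {F : Type*} [Field F] {A : Type*} [NonUnitalRing A] [Module F A]

theorem ev_mon (x : ℕ → A) (w : List ℕ) : ev F x (mon w) = word x (toWord w) := by
  simp [ev, mon, value, coef]

theorem ev_diff (x : ℕ → A) (w w' : List ℕ) :
    ev F x (diff w w') = word x (toWord w) - word x (toWord w') := by
  simp [ev, diff, value, coef, sub_eq_add_neg]

end

theorem word_toWord {B : Type*} [Ring B] (x : ℕ → B) (w : List ℕ) (hw : w ≠ []) :
    word x (toWord w) = (w.map x).prod := by
  rcases w with _ | ⟨a, l⟩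
  · exact absurd rfl hw
  · rw [word_eq_prod]
    rfl

section unitization

variable {F : Type*} [Field F] {A : Type*} [NonUnitalRing A] [Module F A] [IsScalarTower F A A]
  [SMulCommClass F A A]

/-- the value of a word in the unitization -/
theorem inr_word (x : ℕ → A) (w : List ℕ) (hw : w ≠ []) :
    (Unitization.inr (word x (toWord w)) : Unitization F A) =
      (w.map (fun i => (Unitization.inr (x i) : Unitization F A))).prod := by
  rw [← word_toWord _ _ hw]
  exact word_map (fun a => (Unitization.inr a : Unitization F A))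
    (fun a b => Unitization.inr_mul F a b) x _

theorem prod_eq_of_ev {x : ℕ → A} {w w' : List ℕ} (hw : w ≠ []) (hw' : w' ≠ [])
    (h : ev F x (diff w w') = 0) :
    (w.map (fun i => (Unitization.inr (x i) : Unitization F A))).prod =
      (w'.map (fun i => (Unitization.inr (x i) : Unitization F A))).prod := by
  rw [ev_diff, sub_eq_zero] at h
  rw [← inr_word x w hw, ← inr_word x w' hw', h]

theorem prod_eq_zero_of_ev {x : ℕ → A} {w : List ℕ} (hw : w ≠ []) (h : ev F x (mon w) = 0) :
    (w.map (fun i => (Unitization.inr (x i) : Unitization F A))).prod = 0 := by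
  rw [ev_mon] at h
  rw [← inr_word x w hw, h, Unitization.inr_zero]

theorem ev_eq_zero_of_prod {x : ℕ → A} {w : List ℕ} (hw : w ≠ [])
    (h : (w.map (fun i => (Unitization.inr (x i) : Unitization F A))).prod = 0) :
    ev F x (mon w) = 0 := by
  rw [ev_mon]
  apply Unitization.inr_injective (R := F)
  rw [inr_word x w hw, h, Unitization.inr_zero]

end unitization

section letters

variable {St : Type} [Encodable St]

/-- the letter of a state -/
def lt (s : St) : ℕ := 4 + Encodable.encode s

/-- the word `b ^ i m_s c ^ j` -/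
def bmc (i : ℕ) (s : St) (j : ℕ) : List ℕ :=
  List.replicate i 1 ++ (lt s :: List.replicate j 2)

theorem bmc_ne (i : ℕ) (s : St) (j : ℕ) : bmc i s j ≠ [] := by
  simp [bmc]

end letters

section model

variable {F : Type u} [Field F] {St : Type} [Fintype St] [DecidableEq St] [Encodable St]
  (h : St → ℕ → ℕ → F)

/-- values of the letters: matrices -/
noncomputable def gen : ℕ → Matrix (Fin 4) (Fin 4) (KK F St)
  | 0 => Matrix.single 0 1 1
  | 1 => Matrix.single 1 1 xK
  | 2 => Matrix.single 2 2 yK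
  | 3 => Matrix.single 2 3 1
  | n + 4 => match Encodable.decode₂ St n with
    | some s => Matrix.single 1 2 (mu s)
    | none => 0

theorem gen_lt (s : St) : (gen (lt s) : Matrix (Fin 4) (Fin 4) (KK F St)) =
    Matrix.single 1 2 (mu s) := by
  have e : lt s = Encodable.encode s + 4 := by
    unfold lt
    omega
  rw [e]
  simp only [gen, Encodable.encodek₂]

theorem mem_single {i j : Fin 4} {κ : KK F St} (h1 : i ≤ j) (h0 : ¬ (i = 0 ∧ j = 0))
    (h3 : ¬ (i = 3 ∧ j = 3)) (h01 : i = 0 → j = 1 → κ ∈ Kx F St) (h11 : i = 1 → j = 1 → κ ∈ Kx F St)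
    (h22 : i = 2 → j = 2 → κ ∈ Ky F St) (h23 : i = 2 → j = 3 → κ ∈ Ky F St) :
    Mem (Matrix.single i j κ) := by
  have e : ∀ a b : Fin 4, ¬ (i = a ∧ j = b) → Matrix.single i j κ a b = 0 := by
    intro a b hab
    exact Matrix.single_apply_of_ne _ _ _ _ _ hab
  have e' : ∀ a b : Fin 4, (i = a → j = b → κ ∈ Kx F St) →
      Matrix.single i j κ a b ∈ Kx F St := by
    intro a b hab
    by_cases hh : i = a ∧ j = b
    · obtain ⟨rfl, rfl⟩ := hh
      rw [Matrix.single_apply_same]
      exact hab rfl rfl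
    · rw [e a b hh]
      exact zero_mem _
  have e'' : ∀ a b : Fin 4, (i = a → j = b → κ ∈ Ky F St) →
      Matrix.single i j κ a b ∈ Ky F St := by
    intro a b hab
    by_cases hh : i = a ∧ j = b
    · obtain ⟨rfl, rfl⟩ := hh
      rw [Matrix.single_apply_same]
      exact hab rfl rfl
    · rw [e a b hh]
      exact zero_mem _
  have lo : ∀ a b : Fin 4, b < a → Matrix.single i j κ a b = 0 := by
    intro a b hab
    apply e
    rintro ⟨rfl, rfl⟩
    exact absurd h1 (not_le.2 hab)
  refine ⟨lo _ _ (by decide), lo _ _ (by decide), lo _ _ (by decide), lo _ _ (by decide),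
    lo _ _ (by decide), lo _ _ (by decide), ?_, ?_, e' _ _ h01, e' _ _ h11, e'' _ _ h22,
    e'' _ _ h23⟩
  · rw [e 0 0 h0]
    exact zero_mem _
  · rw [e 3 3 h3]
    exact zero_mem _

theorem xK_mem : (xK : KK F St) ∈ Kx F St := ⟨Polynomial.X, by simp⟩

theorem yK_mem : (yK : KK F St) ∈ Ky F St := ⟨Polynomial.X, by simp⟩

theorem gen_mem (n : ℕ) : Mem (gen n : Matrix (Fin 4) (Fin 4) (KK F St)) := by
  match n with
  | 0 =>
    exact mem_single (by decide) (by decide) (by decide) (fun _ _ => one_mem _)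
      (fun hh => absurd hh (by decide)) (fun hh => absurd hh (by decide))
      (fun hh => absurd hh (by decide))
  | 1 =>
    exact mem_single (by decide) (by decide) (by decide) (fun hh => absurd hh (by decide))
      (fun _ _ => xK_mem) (fun hh => absurd hh (by decide))
      (fun hh => absurd hh (by decide))
  | 2 =>
    exact mem_single (by decide) (by decide) (by decide) (fun hh => absurd hh (by decide))
      (fun hh => absurd hh (by decide)) (fun _ _ => yK_mem)
      (fun _ hh => absurd hh (by decide))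
  | 3 =>
    exact mem_single (by decide) (by decide) (by decide) (fun hh => absurd hh (by decide))
      (fun hh => absurd hh (by decide)) (fun _ hh => absurd hh (by decide))
      (fun _ _ => one_mem _)
  | n + 4 =>
    simp only [gen]
    rcases Encodable.decode₂ St n with _ | s
    · exact zero_mem (SS F St)
    · exact mem_single (by decide) (by decide) (by decide) (fun hh => absurd hh (by decide))
        (fun _ hh => absurd hh (by decide)) (fun hh => absurd hh (by decide))
        (fun hh => absurd hh (by decide))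

theorem gen_diag (n : ℕ) : (gen n : Matrix (Fin 4) (Fin 4) (KK F St)) 0 0 = 0 ∧
    (gen n : Matrix (Fin 4) (Fin 4) (KK F St)) 3 3 = 0 := by
  match n with
  | 0 => exact ⟨Matrix.single_apply_of_ne _ _ _ _ _ (by decide),
      Matrix.single_apply_of_ne _ _ _ _ _ (by decide)⟩
  | 1 => exact ⟨Matrix.single_apply_of_ne _ _ _ _ _ (by decide),
      Matrix.single_apply_of_ne _ _ _ _ _ (by decide)⟩
  | 2 => exact ⟨Matrix.single_apply_of_ne _ _ _ _ _ (by decide),
      Matrix.single_apply_of_ne _ _ _ _ _ (by decide)⟩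
  | 3 => exact ⟨Matrix.single_apply_of_ne _ _ _ _ _ (by decide),
      Matrix.single_apply_of_ne _ _ _ _ _ (by decide)⟩
  | n + 4 =>
    simp only [gen]
    rcases Encodable.decode₂ St n with _ | s
    · exact ⟨rfl, rfl⟩
    · exact ⟨Matrix.single_apply_of_ne _ _ _ _ _ (by decide),
        Matrix.single_apply_of_ne _ _ _ _ _ (by decide)⟩

/-- values of the letters in the algebra of matrices -/
noncomputable def genS (n : ℕ) : SS F St := ⟨gen n, gen_mem n⟩

/-- values of the letters in the algebra -/
noncomputable def genA (n : ℕ) : AA h :=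
  ⟨Ideal.Quotient.mk _ (genS n), genS n, (gen_diag n).1, (gen_diag n).2, rfl⟩

theorem ev_genA (f : Poly) : ((ev F (genA h) f : AA h) : SS F St ⧸ syn (phi h)) =
    Ideal.Quotient.mk _ (ev F genS f) := by
  have h3 := ev_map F (Ideal.Quotient.mkₐ F (syn (phi h))).toLinearMap
    (fun a b => map_mul (Ideal.Quotient.mkₐ F (syn (phi h))) a b) (genS : ℕ → SS F St) f
  let inc : AA h →ₗ[F] (SS F St ⧸ syn (phi h)) := (AA h).toSubmodule.subtype
  have h4 := ev_map F inc (fun a b => rfl) (genA h) f
  exact h4.trans h3.symm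

theorem ev_genS (f : Poly) : ((ev F genS f : SS F St) : Matrix (Fin 4) (Fin 4) (KK F St)) =
    ev F gen f := ev_map F (SS F St).val.toLinearMap (fun a b => rfl) genS f

theorem ev_genA_eq_zero (f : Poly) : ev F (genA h) f = 0 ↔
    ∀ U V : SS F St, Phi h ((U.1 * ev F gen f * V.1 : Matrix (Fin 4) (Fin 4) (KK F St)) 0 3) = 0 := by
  rw [← ZeroMemClass.coe_eq_zero, ev_genA, Ideal.Quotient.eq_zero_iff_mem, mem_syn]
  refine forall_congr' fun U => forall_congr' fun V => ?_
  rw [← ev_genS]
  rfl

omit [Fintype St] [DecidableEq St] [Encodable St] in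
theorem single_sub' (i j : Fin 4) (a b : KK F St) :
    Matrix.single i j (a - b) = Matrix.single i j a - Matrix.single i j b := by
  ext1 k l
  rw [Matrix.sub_apply, Matrix.single_apply, Matrix.single_apply, Matrix.single_apply]
  split_ifs
  · rfl
  · rw [sub_zero]

theorem single_mid (U V : Matrix (Fin 4) (Fin 4) (KK F St)) (i j : Fin 4) (κ : KK F St) :
    (U * Matrix.single i j κ * V) 0 3 = U 0 i * κ * V j 3 := by
  rw [Matrix.mul_apply, Finset.sum_eq_single j]
  · rw [Matrix.mul_single_apply_same]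
  · intro k _ hk
    rw [Matrix.mul_single_apply_of_ne _ _ _ _ _ hk, zero_mul]
  · intro hj
    exact absurd (Finset.mem_univ _) hj

theorem gen_bmc (i : ℕ) (s : St) (j : ℕ) :
    ((bmc i s j).map (gen : ℕ → Matrix (Fin 4) (Fin 4) (KK F St))).prod =
      Matrix.single 1 2 (xK ^ i * mu s * yK ^ j) := by
  unfold bmc
  rw [List.map_append, List.prod_append, List.map_replicate, List.prod_replicate, List.map_cons,
    List.prod_cons, List.map_replicate, List.prod_replicate, gen_lt]
  have e1 : ∀ κ : KK F St, (gen 1 : Matrix (Fin 4) (Fin 4) (KK F St)) ^ i * Matrix.single 1 2 κ =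
      Matrix.single 1 2 (xK ^ i * κ) := by
    induction i with
    | zero => intro κ; simp
    | succ i ih =>
      intro κ
      rw [pow_succ, mul_assoc]
      have : (gen 1 : Matrix (Fin 4) (Fin 4) (KK F St)) * Matrix.single 1 2 κ =
        Matrix.single 1 2 (xK * κ) := Matrix.single_mul_single_same _ _ _ _ _
      rw [this, ih, pow_succ, mul_assoc]
  have e2 : ∀ κ : KK F St, Matrix.single 1 2 κ *
      (gen 2 : Matrix (Fin 4) (Fin 4) (KK F St)) ^ j = Matrix.single 1 2 (κ * yK ^ j) := by
    induction j with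
    | zero => intro κ; simp
    | succ j ih =>
      intro κ
      rw [pow_succ', ← mul_assoc]
      have : Matrix.single 1 2 κ * (gen 2 : Matrix (Fin 4) (Fin 4) (KK F St)) =
        Matrix.single 1 2 (κ * yK) := Matrix.single_mul_single_same _ _ _ _ _
      rw [this, ih, pow_succ', mul_assoc]
  rw [e2, e1, mul_assoc]

theorem prem_two {i j i' j' : ℕ} {s s' : St}
    (hh : ∀ a b, h s (a + i) (b + j) = h s' (a + i') (b + j')) :
    ev F (genA h) (diff (bmc i s j) (bmc i' s' j')) = 0 := by
  rw [ev_genA_eq_zero]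
  intro U V
  rw [ev_diff, word_toWord _ _ (bmc_ne _ _ _), word_toWord _ _ (bmc_ne _ _ _), gen_bmc, gen_bmc,
    ← single_sub', single_mid]
  refine Phi_zero h ?_ (U.2 : Mem U.1).h01 (V.2 : Mem V.1).h23
  intro a b
  have e : (xK ^ a * (xK ^ i * mu s * yK ^ j - xK ^ i' * mu s' * yK ^ j') * yK ^ b : KK F St) =
      xK ^ (a + i) * mu s * yK ^ (b + j) - xK ^ (a + i') * mu s' * yK ^ (b + j') := by ring
  rw [e, map_sub, Phi_mono, Phi_mono, hh, sub_self]

theorem prem_left {s s' : St} (hh : ∀ b, h s 0 b = h s' 0 b) :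
    ev F (genA h) (diff (0 :: bmc 0 s 0) (0 :: bmc 0 s' 0)) = 0 := by
  rw [ev_genA_eq_zero]
  intro U V
  rw [ev_diff, word_toWord _ _ (by simp), word_toWord _ _ (by simp), List.map_cons, List.map_cons,
    List.prod_cons, List.prod_cons, gen_bmc, gen_bmc]
  have e : ∀ κ : KK F St, (gen 0 : Matrix (Fin 4) (Fin 4) (KK F St)) * Matrix.single 1 2 κ =
      Matrix.single 0 2 κ := by
    intro κ
    refine (Matrix.single_mul_single_same _ _ _ _ _).trans ?_
    rw [one_mul]
  rw [e, e, ← single_sub', single_mid]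
  obtain ⟨c, hc⟩ := (U.2 : Mem U.1).h00
  rw [← hc]
  have h2 := (V.2 : Mem V.1).h23
  have h1 : ∀ b, Phi h ((xK ^ 0 * mu s * yK ^ 0 - xK ^ 0 * mu s' * yK ^ 0) * yK ^ b) = 0 := by
    intro b
    have e : ((xK ^ 0 * mu s * yK ^ 0 - xK ^ 0 * mu s' * yK ^ 0) * yK ^ b : KK F St) =
      xK ^ 0 * mu s * yK ^ b - xK ^ 0 * mu s' * yK ^ b := by ring
    rw [e, map_sub, Phi_mono, Phi_mono, hh, sub_self]
  obtain ⟨q, hq⟩ := h2
  rw [← hq]
  change Phi h (algebraMap F (KK F St) c * _ * Polynomial.aeval yK q) = 0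
  rw [mul_assoc, ← Algebra.smul_def, map_smul]
  have h3 : Phi h ((xK ^ 0 * mu s * yK ^ 0 - xK ^ 0 * mu s' * yK ^ 0) *
      Polynomial.aeval yK q) = 0 := by
    clear hq
    induction q using Polynomial.induction_on' with
    | add q q' hq hq' => rw [map_add, mul_add, map_add, hq, hq', add_zero]
    | monomial m d =>
      rw [Polynomial.aeval_monomial, ← mul_assoc, mul_comm _ (algebraMap F (KK F St) d),
        mul_assoc, ← Algebra.smul_def, map_smul, h1, smul_zero]
  rw [h3, smul_zero]

theorem gen_bmcr (i : ℕ) (s : St) (j : ℕ) :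
    ((bmc i s j ++ [3]).map (gen : ℕ → Matrix (Fin 4) (Fin 4) (KK F St))).prod =
      Matrix.single 1 3 (xK ^ i * mu s * yK ^ j) := by
  rw [List.map_append, List.prod_append, gen_bmc, List.map_singleton, List.prod_singleton]
  refine (Matrix.single_mul_single_same _ _ _ _ _).trans ?_
  rw [mul_one]

theorem right_zero {κ : KK F St} (hκ : ∀ a, Phi h (xK ^ a * κ) = 0) (U V : SS F St) :
    Phi h ((U.1 * Matrix.single 1 3 κ * V.1 : Matrix (Fin 4) (Fin 4) (KK F St)) 0 3) = 0 := by
  rw [single_mid]
  obtain ⟨c, hc⟩ := (V.2 : Mem V.1).h33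
  obtain ⟨q, hq⟩ := (U.2 : Mem U.1).h01
  rw [← hc, ← hq]
  change Phi h (Polynomial.aeval xK q * κ * algebraMap F (KK F St) c) = 0
  rw [mul_comm, ← Algebra.smul_def, map_smul]
  have h3 : Phi h (Polynomial.aeval xK q * κ) = 0 := by
    clear hq
    induction q using Polynomial.induction_on' with
    | add q q' hq hq' => rw [map_add, add_mul, map_add, hq, hq', add_zero]
    | monomial m d =>
      rw [Polynomial.aeval_monomial, mul_assoc, ← Algebra.smul_def, map_smul, hκ, smul_zero]
  rw [h3, smul_zero]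

theorem prem_right {j i' : ℕ} {s s' : St} (hh : ∀ a, h s a j = h s' (a + i') 0) :
    ev F (genA h) (diff (bmc 0 s j ++ [3]) (bmc i' s' 0 ++ [3])) = 0 := by
  rw [ev_genA_eq_zero]
  intro U V
  rw [ev_diff, word_toWord _ _ (by simp), word_toWord _ _ (by simp), gen_bmcr, gen_bmcr,
    ← single_sub']
  refine right_zero h ?_ U V
  intro a
  have e : (xK ^ a * (xK ^ 0 * mu s * yK ^ j - xK ^ i' * mu s' * yK ^ 0) : KK F St) =
      xK ^ a * mu s * yK ^ j - xK ^ (a + i') * mu s' * yK ^ 0 := by ring
  rw [e, map_sub, Phi_mono, Phi_mono, hh, sub_self]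

theorem prem_right_zero {j : ℕ} {s : St} (hh : ∀ a, h s a j = 0) :
    ev F (genA h) (mon (bmc 0 s j ++ [3])) = 0 := by
  rw [ev_genA_eq_zero]
  intro U V
  rw [ev_mon, word_toWord _ _ (by simp), gen_bmcr]
  refine right_zero h ?_ U V
  intro a
  have e : (xK ^ a * (xK ^ 0 * mu s * yK ^ j) : KK F St) = xK ^ a * mu s * yK ^ j := by ring
  rw [e, Phi_mono, hh]

theorem concl {i j : ℕ} {s : St} (hz : ev F (genA h) (mon (0 :: bmc i s j ++ [3])) = 0) :
    h s i j = 0 := by
  rw [ev_genA_eq_zero] at hz
  have h1 := hz 1 1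
  rw [ev_mon, word_toWord _ _ (by simp), List.cons_append, List.map_cons, List.prod_cons,
    gen_bmcr] at h1
  have e : ∀ κ : KK F St, (gen 0 : Matrix (Fin 4) (Fin 4) (KK F St)) * Matrix.single 1 3 κ =
      Matrix.single 0 3 κ := by
    intro κ
    refine (Matrix.single_mul_single_same _ _ _ _ _).trans ?_
    rw [one_mul]
  rw [e] at h1
  change Phi h ((1 * Matrix.single 0 3 _ * 1 : Matrix (Fin 4) (Fin 4) (KK F St)) 0 3) = 0 at h1
  rw [one_mul, mul_one, Matrix.single_apply_same, Phi_mono] at h1
  exact h1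

end model

end Pool.Agent.Hp6.EQ
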