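import Mathlib
import Pool.Agent.H109R3.CF.Src

set_option autoImplicit false
set_option linter.unusedSimpArgs false

/-!
# A machine with one number
-/

namespace Pool.Agent.Hp6.EQ

open Pool.Agent.H502.PcSrc Pool.Agent.H109R3.CF

/-- In state `p` the number `n` is divided by `pi p`; if it is divisible with quotient `t` then the
next number is `a p * t`, otherwise it is `b p * n`. -/
structure Mach where
  k : ℕ
  pi : Fin k → ℕ
  hpi : ∀ p, 0 < pi p
  a : Fin k → ℕ
  b : Fin k → ℕ
  nxt : Fin k → Bool → Option (Fin k)

namespace Mach

variable (M : Mach)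

/-- the next number -/
def num (p : Fin M.k) (n : ℕ) : ℕ :=
  if M.pi p ∣ n then M.a p * (n / M.pi p) else M.b p * n

/-- the next state -/
def sta (p : Fin M.k) (n : ℕ) : Option (Fin M.k) := M.nxt p (decide (M.pi p ∣ n))

/-- the machine stops -/
inductive Halts : Option (Fin M.k) → ℕ → Prop
  | stop (n : ℕ) : Halts none n
  | step (p : Fin M.k) (n : ℕ) : Halts (M.sta p n) (M.num p n) → Halts (some p) n

theorem halts_some (p : Fin M.k) (n : ℕ) :
    M.Halts (some p) n ↔ M.Halts (M.sta p n) (M.num p n) := by
  constructor
  · intro h
    cases h with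
    | step _ _ h => exact h
  · exact Halts.step p n

end Mach

section

variable {P : Type} (D : DM P (Bool × Bool)) {k : ℕ} (e : P ≃ Fin k)

/-- the machine with one number of a register machine -/
def toMach : Mach where
  k := k
  pi q := pr (D.reg (e.symm q))
  hpi q := (pr_prime _).pos
  a q := code (D.vec (e.symm q) true)
  b q := code (D.vec (e.symm q) false)
  nxt q β := (D.nxt (e.symm q) β).map e

theorem toMach_step (p : P) (c : Bool × Bool → ℤ) (hc : ∀ j, 0 ≤ c j) :
    (toMach D e).sta (e p) (code c) = (D.st (some p, c)).1.map e ∧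
      (toMach D e).num (e p) (code c) = code (D.st (some p, c)).2 := by
  have hpi : (toMach D e).pi (e p) = pr (D.reg p) := by
    change pr (D.reg (e.symm (e p))) = _
    rw [e.symm_apply_apply]
  have hst : D.st (some p, c) = (D.nxt p (D.br p c), c + D.vec p (D.br p c)) := rfl
  unfold Mach.sta Mach.num
  rw [hpi, hst]
  by_cases hpos : 0 < c (D.reg p)
  · have hd : pr (D.reg p) ∣ code c := (dvd_code c _).2 hpos
    have hb : D.br p c = true := by simp [DM.br, hpos]
    rw [hb]
    simp only [hd, decide_true, if_true]
    refine ⟨?_, ?_⟩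
    · change (D.nxt (e.symm (e p)) true).map e = _
      rw [e.symm_apply_apply]
    · have hcode := code_add_neg (c := c) (d := D.vec p true) (D.reg p) hc
        (fun j hj => D.hp p j hj) (D.hp' p) hpos
      change code (D.vec (e.symm (e p)) true) * (code c / pr (D.reg p)) = _
      rw [e.symm_apply_apply]
      obtain ⟨t, ht⟩ := hd
      rw [ht] at hcode ⊢
      rw [Nat.mul_div_cancel_left _ (pr_prime _).pos]
      apply Nat.eq_of_mul_eq_mul_right (pr_prime (D.reg p)).pos
      rw [hcode]
      ring
  · have hd : ¬ pr (D.reg p) ∣ code c := fun hh => hpos ((dvd_code c _).1 hh)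
    have hb : D.br p c = false := by simp [DM.br, hpos]
    rw [hb]
    simp only [hd, decide_false, if_false]
    refine ⟨?_, ?_⟩
    · change (D.nxt (e.symm (e p)) false).map e = _
      rw [e.symm_apply_apply]
    · change code (D.vec (e.symm (e p)) false) * code c = _
      rw [e.symm_apply_apply, code_add hc (D.hz p)]

theorem toMach_halts (o : Option P) (c : Bool × Bool → ℤ) (hc : ∀ j, 0 ≤ c j) :
    (toMach D e).Halts (o.map e) (code c) ↔ D.Halts (o, c) := by
  constructor
  · intro h
    have key : ∀ (o' : Option (Fin (toMach D e).k)) (n : ℕ), (toMach D e).Halts o' n →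
        ∀ (o : Option P) (c : Bool × Bool → ℤ), (∀ j, 0 ≤ c j) → o.map e = o' → code c = n →
          D.Halts (o, c) := by
      intro o' n h
      induction h with
      | stop n =>
        intro o c _ ho _
        rcases o with _ | p
        · exact ⟨0, rfl⟩
        · exact absurd ho (by simp)
      | step q n _ ih =>
        intro o c hc ho hn
        rcases o with _ | p
        · exact absurd ho (by simp)
        · have hq : e p = q := Option.some.inj ho
          subst hq
          subst hn
          obtain ⟨h1, h2⟩ := toMach_step D e p c hc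
          rw [← DM.halts_st]
          exact ih (D.st (some p, c)).1 (D.st (some p, c)).2 (D.st_nonneg _ hc) h1.symm h2.symm
    exact key _ _ h o c hc rfl rfl
  · rintro ⟨m, hm⟩
    induction m generalizing o c with
    | zero =>
      simp only [Function.iterate_zero, id_eq] at hm
      subst hm
      exact Mach.Halts.stop _
    | succ m ih =>
      rcases o with _ | p
      · exact Mach.Halts.stop _
      · rw [Function.iterate_succ_apply] at hm
        obtain ⟨h1, h2⟩ := toMach_step D e p c hc
        refine Mach.Halts.step (M := toMach D e) (e p) (code c) ?_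
        rw [h1, h2]
        exact ih _ _ (D.st_nonneg _ hc) hm

end

/-- a machine with one number whose halting problem is undecidable -/
theorem exists_mach : ∃ (M : Mach) (p0 : Fin M.k) (N : ℕ → ℕ), Computable N ∧
    ¬ ComputablePred (fun n => M.Halts (some p0) (N n)) := by
  obtain ⟨Q, hQ, M, q0, N, _, hN, h⟩ := exists_sys
  have hf : Finite (RS M) := inferInstance
  let _ : Fintype (RS M) := Fintype.ofFinite _
  let D : DM (RS M) (Bool × Bool) := dm M q0 0
  let e := Fintype.equivFin (RS M)
  refine ⟨toMach D e, e (.d1 q0 (z0 M)), fun n => 2 ^ N n, ?_, ?_⟩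
  · have h1 : Primrec (fun n : ℕ => 2 ^ n) := by
      have : Primrec₂ (fun _ n : ℕ => 2 ^ n) := by
        refine (Primrec.nat_rec (f := fun _ : ℕ => 1) (g := fun _ (p : ℕ × ℕ) => 2 * p.2)
          (Primrec.const 1) ?_).of_eq ?_
        · exact (Primrec.nat_mul.comp (Primrec.const 2) (Primrec.snd.comp Primrec.snd))
        · intro a n
          induction n with
          | zero => rfl
          | succ n ih =>
            simp only at ih ⊢
            rw [ih, pow_succ]
            ring
      exact this.comp (Primrec.const 0) Primrec.id
    exact h1.to_comp.comp hN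
  · intro hc
    apply h
    refine hc.of_eq ?_
    intro n
    have h1 := dm_halts_iff M q0 0 q0 (ini (N n))
    rw [← h1]
    have hcode : code (v4 (ini (N n) true) (ini (N n) false) 0 0) = 2 ^ N n := by
      unfold code
      rw [Fintype.prod_prod_type]
      simp [v4, ini, pr]
    have hnn : ∀ j, 0 ≤ v4 (ini (N n) true : ℤ) (ini (N n) false : ℤ) 0 0 j := by
      rintro ⟨a, b⟩
      cases a <;> cases b <;> simp [v4]
    have h2 := toMach_halts D e (some (.d1 q0 (z0 M))) _ hnn
    rw [hcode] at h2
    exact h2

end Pool.Agent.Hp6.EQ
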