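import Mathlib
import Pool.Agent.Hp6.EQ.Gen
import Pool.Agent.Hp6.EQ.Machine

set_option autoImplicit false
set_option linter.unusedSimpArgs false

/-!
# The quasi-identity of a machine
-/

namespace Pool.Agent.Hp6.EQ

open Matrix

universe u

/-- states of the algebra -/
abbrev Sx (M : Mach) : Type := (Σ p : Fin M.k, Fin (M.pi p)) ⊕ (Fin M.k × Bool)

section

variable (M : Mach)

/-- residue -/
def idx (p : Fin M.k) (i : ℕ) : Fin (M.pi p) := ⟨i % M.pi p, Nat.mod_lt _ (M.hpi p)⟩

/-- the state in which the residue is determined -/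
def scan (p : Fin M.k) (i : ℕ) : Sx M := .inl ⟨p, idx M p i⟩

/-- the state in which the next number is computed -/
def conv (p : Fin M.k) (β : Bool) : Sx M := .inr (p, β)

theorem scan_mod (p : Fin M.k) (i : ℕ) : scan M p (i % M.pi p) = scan M p i := by
  unfold scan idx
  simp

theorem scan_mod_succ (p : Fin M.k) (i : ℕ) : scan M p (i % M.pi p + 1) = scan M p (i + 1) := by
  unfold scan idx
  simp

/-- the divisor -/
def dv (p : Fin M.k) : Bool → ℕ
  | true => M.pi p
  | false => 1

/-- the factor -/
def fc (p : Fin M.k) : Bool → ℕ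
  | true => M.a p
  | false => M.b p

/-- premises: determination of the residue -/
def t1 (x : Fin M.k × ℕ) : Poly :=
  diff (bmc 1 (scan M x.1 x.2) 0) (bmc 0 (scan M x.1 (x.2 + 1)) 1)

/-- premises: end of the determination of the residue -/
def t2 (x : Fin M.k × ℕ) : Poly :=
  diff (0 :: bmc 0 (scan M x.1 x.2) 0) (0 :: bmc 0 (conv M x.1 (decide (x.2 % M.pi x.1 = 0))) 0)

/-- premises: computation of the next number -/
def t3 (x : Fin M.k × Bool) : Poly :=
  diff (bmc 0 (conv M x.1 x.2) (dv M x.1 x.2)) (bmc (fc M x.1 x.2) (conv M x.1 x.2) 0)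

/-- premises: end of the computation of the next number -/
def t4 (x : Fin M.k × Bool) : Poly :=
  match M.nxt x.1 x.2 with
  | some q => diff (bmc 0 (conv M x.1 x.2) 0 ++ [3]) (bmc 0 (scan M q 0) 0 ++ [3])
  | none => mon (bmc 0 (conv M x.1 x.2) 0 ++ [3])

/-- the premises -/
def prem : List Poly :=
  (List.finRange M.k).flatMap fun p =>
    (List.range (M.pi p)).map (fun i => t1 M (p, i)) ++
      ((List.range (M.pi p)).map (fun i => t2 M (p, i)) ++
        ([t3 M (p, true), t3 M (p, false)] ++ [t4 M (p, true), t4 M (p, false)]))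

/-- the conclusion -/
def conc (p : Fin M.k) (n : ℕ) : Poly := mon (0 :: bmc n (scan M p 0) 0 ++ [3])

theorem mem_t1 (p : Fin M.k) {i : ℕ} (hi : i < M.pi p) : t1 M (p, i) ∈ prem M := by
  refine List.mem_flatMap.2 ⟨p, List.mem_finRange p, ?_⟩
  exact List.mem_append_left _ (List.mem_map.2 ⟨i, List.mem_range.2 hi, rfl⟩)

theorem mem_t2 (p : Fin M.k) {i : ℕ} (hi : i < M.pi p) : t2 M (p, i) ∈ prem M := by
  refine List.mem_flatMap.2 ⟨p, List.mem_finRange p, ?_⟩
  exact List.mem_append_right _
    (List.mem_append_left _ (List.mem_map.2 ⟨i, List.mem_range.2 hi, rfl⟩))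

theorem mem_t3 (p : Fin M.k) (β : Bool) : t3 M (p, β) ∈ prem M := by
  refine List.mem_flatMap.2 ⟨p, List.mem_finRange p, ?_⟩
  refine List.mem_append_right _ (List.mem_append_right _ (List.mem_append_left _ ?_))
  cases β <;> simp

theorem mem_t4 (p : Fin M.k) (β : Bool) : t4 M (p, β) ∈ prem M := by
  refine List.mem_flatMap.2 ⟨p, List.mem_finRange p, ?_⟩
  refine List.mem_append_right _ (List.mem_append_right _ (List.mem_append_right _ ?_))
  cases β <;> simp

theorem prem_cases {f : Poly} (hf : f ∈ prem M) :
    (∃ p i, f = t1 M (p, i)) ∨ (∃ p i, f = t2 M (p, i)) ∨ (∃ p β, f = t3 M (p, β)) ∨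
      (∃ p β, f = t4 M (p, β)) := by
  obtain ⟨p, -, hp⟩ := List.mem_flatMap.1 hf
  rcases List.mem_append.1 hp with hp | hp
  · obtain ⟨i, -, rfl⟩ := List.mem_map.1 hp
    exact Or.inl ⟨p, i, rfl⟩
  rcases List.mem_append.1 hp with hp | hp
  · obtain ⟨i, -, rfl⟩ := List.mem_map.1 hp
    exact Or.inr (Or.inl ⟨p, i, rfl⟩)
  rcases List.mem_append.1 hp with hp | hp
  · refine Or.inr (Or.inr (Or.inl ?_))
    simp only [List.mem_cons, List.not_mem_nil, or_false] at hp
    rcases hp with rfl | rfl
    · exact ⟨p, true, rfl⟩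
    · exact ⟨p, false, rfl⟩
  · refine Or.inr (Or.inr (Or.inr ?_))
    simp only [List.mem_cons, List.not_mem_nil, or_false] at hp
    rcases hp with rfl | rfl
    · exact ⟨p, true, rfl⟩
    · exact ⟨p, false, rfl⟩

/-! ## A run of the machine gives a derivation -/

section derive

variable {F : Type*} [Field F] {A : Type*} [NonUnitalRing A] [Module F A] [IsScalarTower F A A]
  [SMulCommClass F A A] {x : ℕ → A} (hx : ∀ f ∈ prem M, ev F x f = 0)

include hx

theorem derive {o : Option (Fin M.k)} {n : ℕ} (h : M.Halts o n) :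
    ∀ p, o = some p → ((0 :: bmc n (scan M p 0) 0 ++ [3]).map
      (fun i => (Unitization.inr (x i) : Unitization F A))).prod = 0 := by
  set X : ℕ → Unitization F A := fun i => Unitization.inr (x i) with hX
  have hb : ∀ (i : ℕ) (s : Sx M) (j : ℕ), ((bmc i s j).map X).prod =
      X 1 ^ i * X (lt s) * X 2 ^ j := by
    intro i s j
    unfold bmc
    rw [List.map_append, List.prod_append, List.map_replicate, List.prod_replicate, List.map_cons,
      List.prod_cons, List.map_replicate, List.prod_replicate, mul_assoc]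
  have H1 : ∀ p (i : ℕ), X 1 * X (lt (scan M p i)) = X (lt (scan M p (i + 1))) * X 2 := by
    intro p i
    have h1 := prod_eq_of_ev (bmc_ne _ _ _) (bmc_ne _ _ _)
      (hx _ (mem_t1 M p (Nat.mod_lt i (M.hpi p))))
    change ((bmc 1 (scan M p (i % M.pi p)) 0).map X).prod =
      ((bmc 0 (scan M p (i % M.pi p + 1)) 1).map X).prod at h1
    rw [hb, hb, scan_mod, scan_mod_succ] at h1
    simpa using h1
  have H2 : ∀ p (i : ℕ), X 0 * X (lt (scan M p i)) =
      X 0 * X (lt (conv M p (decide (i % M.pi p = 0)))) := by
    intro p i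
    have h1 := prod_eq_of_ev (List.cons_ne_nil _ _) (List.cons_ne_nil _ _)
      (hx _ (mem_t2 M p (Nat.mod_lt i (M.hpi p))))
    change ((0 :: bmc 0 (scan M p (i % M.pi p)) 0).map X).prod =
      ((0 :: bmc 0 (conv M p (decide (i % M.pi p % M.pi p = 0))) 0).map X).prod at h1
    rw [List.map_cons, List.map_cons, List.prod_cons, List.prod_cons, hb, hb, scan_mod,
      Nat.mod_mod] at h1
    simpa using h1
  have H3 : ∀ p β, X (lt (conv M p β)) * X 2 ^ dv M p β =
      X 1 ^ fc M p β * X (lt (conv M p β)) := by
    intro p β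
    have h1 := prod_eq_of_ev (bmc_ne _ _ _) (bmc_ne _ _ _) (hx _ (mem_t3 M p β))
    change ((bmc 0 (conv M p β) (dv M p β)).map X).prod =
      ((bmc (fc M p β) (conv M p β) 0).map X).prod at h1
    rw [hb, hb] at h1
    simpa using h1
  have H4 : ∀ p β q, M.nxt p β = some q → X (lt (conv M p β)) * X 3 =
      X (lt (scan M q 0)) * X 3 := by
    intro p β q hq
    have h0 := hx _ (mem_t4 M p β)
    unfold t4 at h0
    simp only [hq] at h0
    have h1 := prod_eq_of_ev (by simp) (by simp) h0
    change ((bmc 0 (conv M p β) 0 ++ [3]).map X).prod =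
      ((bmc 0 (scan M q 0) 0 ++ [3]).map X).prod at h1
    rw [List.map_append, List.map_append, List.prod_append, List.prod_append, hb, hb] at h1
    simpa using h1
  have H5 : ∀ p β, M.nxt p β = none → X (lt (conv M p β)) * X 3 = 0 := by
    intro p β hq
    have h0 := hx _ (mem_t4 M p β)
    unfold t4 at h0
    simp only [hq] at h0
    have h1 := prod_eq_zero_of_ev (by simp) h0
    change ((bmc 0 (conv M p β) 0 ++ [3]).map X).prod = 0 at h1
    rw [List.map_append, List.prod_append, hb] at h1
    simpa using h1
  have L1 : ∀ p (n i : ℕ), X 1 ^ n * X (lt (scan M p i)) =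
      X (lt (scan M p (i + n))) * X 2 ^ n := by
    intro p n
    induction n with
    | zero => intro i; simp
    | succ n ih =>
      intro i
      rw [pow_succ, mul_assoc, H1, ← mul_assoc, ih, pow_succ, mul_assoc]
      congr 3
      congr 1
      omega
  have L3 : ∀ p β (t : ℕ), X (lt (conv M p β)) * X 2 ^ (dv M p β * t) =
      X 1 ^ (fc M p β * t) * X (lt (conv M p β)) := by
    intro p β t
    induction t with
    | zero => simp
    | succ t ih =>
      rw [Nat.mul_succ, pow_add, ← mul_assoc, ih, mul_assoc, H3, ← mul_assoc, ← pow_add,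
        Nat.mul_succ]
  induction h with
  | stop n =>
    intro p hp
    cases hp
  | step p n _ ih =>
    intro p' hp'
    obtain rfl : p = p' := Option.some.inj hp'
    rw [List.cons_append, List.map_cons, List.prod_cons, List.map_append, List.prod_append, hb,
      pow_zero, mul_one, L1, zero_add, List.map_singleton, List.prod_singleton]
    rw [← mul_assoc, ← mul_assoc, H2]
    have key : ∀ t : ℕ, n = dv M p (decide (n % M.pi p = 0)) * t →
        M.num p n = fc M p (decide (n % M.pi p = 0)) * t →
        X 0 * X (lt (conv M p (decide (n % M.pi p = 0)))) * X 2 ^ n * X 3 = 0 := by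
      intro t ht hnum
      have hst : M.sta p n = M.nxt p (decide (n % M.pi p = 0)) := by
        unfold Mach.sta
        congr 2
        exact propext Nat.dvd_iff_mod_eq_zero
      rw [mul_assoc (X 0)]
      have e1 : X (lt (conv M p (decide (n % M.pi p = 0)))) * X 2 ^ n =
          X 1 ^ (M.num p n) * X (lt (conv M p (decide (n % M.pi p = 0)))) := by
        rw [hnum, ← L3, ← ht]
      rw [e1, mul_assoc, mul_assoc]
      rcases hq : M.nxt p (decide (n % M.pi p = 0)) with _ | q
      · rw [H5 _ _ hq, mul_zero, mul_zero]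
      · rw [H4 _ _ _ hq]
        have h1 := ih q (hst.trans hq)
        rw [List.cons_append, List.map_cons, List.prod_cons, List.map_append, List.prod_append, hb,
          pow_zero, mul_one, List.map_singleton, List.prod_singleton, mul_assoc] at h1
        exact h1
    by_cases hd : n % M.pi p = 0
    · have hd' : M.pi p ∣ n := Nat.dvd_of_mod_eq_zero hd
      refine key (n / M.pi p) ?_ ?_
      · rw [decide_eq_true hd]
        exact (Nat.mul_div_cancel' hd').symm
      · rw [decide_eq_true hd]
        unfold Mach.num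
        rw [if_pos hd']
        rfl
    · have hd' : ¬ M.pi p ∣ n := fun hh => hd (Nat.mod_eq_zero_of_dvd hh)
      refine key n ?_ ?_
      · rw [decide_eq_false hd]
        exact (one_mul n).symm
      · rw [decide_eq_false hd]
        unfold Mach.num
        rw [if_neg hd']
        rfl

theorem derive_conc {p : Fin M.k} {n : ℕ} (h : M.Halts (some p) n) : ev F x (conc M p n) = 0 :=
  ev_eq_zero_of_prod (by simp) (derive M hx h p rfl)

end derive

/-! ## The values of the words in the algebra -/

section values

variable (F : Type u) [Field F]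

open Classical in
/-- the indicator function of the configurations from which the machine does not stop -/
noncomputable def chi (o : Option (Fin M.k)) (n : ℕ) : F := if M.Halts o n then 0 else 1

/-- values in the second phase -/
noncomputable def hc (p : Fin M.k) : Bool → ℕ → ℕ → F
  | true, i, j => if M.pi p ∣ j then chi M F (M.nxt p true) (i + M.a p * (j / M.pi p)) else 0
  | false, i, j => chi M F (M.nxt p false) (i + M.b p * j)

/-- values of all words -/
noncomputable def hh : Sx M → ℕ → ℕ → F
  | .inl ⟨p, r⟩, i, j => hc M F p (decide ((r.1 + i) % M.pi p = 0)) 0 (i + j)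
  | .inr (p, β), i, j => hc M F p β i j

theorem hh_scan (p : Fin M.k) (r i j : ℕ) :
    hh M F (scan M p r) i j = hc M F p (decide ((r + i) % M.pi p = 0)) 0 (i + j) := by
  change hc M F p (decide ((r % M.pi p + i) % M.pi p = 0)) 0 (i + j) = _
  rw [Nat.mod_add_mod]

theorem hh_conv (p : Fin M.k) (β : Bool) (i j : ℕ) : hh M F (conv M p β) i j = hc M F p β i j := rfl

theorem hh_start (p : Fin M.k) (n : ℕ) : hh M F (scan M p 0) n 0 = chi M F (some p) n := by
  rw [hh_scan, zero_add, add_zero]
  have e : chi M F (some p) n = chi M F (M.sta p n) (M.num p n) := by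
    unfold chi
    rw [M.halts_some]
  rw [e]
  unfold Mach.sta Mach.num
  by_cases hd : M.pi p ∣ n
  · have hd' : n % M.pi p = 0 := Nat.mod_eq_zero_of_dvd hd
    simp only [hd, hd', decide_true, if_true, hc, zero_add]
  · have hd' : ¬ n % M.pi p = 0 := fun h => hd (Nat.dvd_of_mod_eq_zero h)
    simp only [hd, hd', decide_false, if_false, hc, zero_add]

theorem hh_none (n : ℕ) : chi M F none n = 0 := by
  unfold chi
  rw [if_pos (Mach.Halts.stop n)]

theorem genA_prem {f : Poly} (hf : f ∈ prem M) : ev F (genA (hh M F)) f = 0 := by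
  rcases prem_cases M hf with ⟨p, i, rfl⟩ | ⟨p, i, rfl⟩ | ⟨p, β, rfl⟩ | ⟨p, β, rfl⟩
  · apply prem_two
    intro a b
    change hh M F (scan M p i) (a + 1) (b + 0) = hh M F (scan M p (i + 1)) (a + 0) (b + 1)
    rw [hh_scan, hh_scan]
    have e1 : i + (a + 1) = i + 1 + (a + 0) := by omega
    have e2 : a + 1 + (b + 0) = a + 0 + (b + 1) := by omega
    rw [e1, e2]
  · apply prem_left
    intro b
    change hh M F (scan M p i) 0 b = hh M F (conv M p (decide (i % M.pi p = 0))) 0 b
    rw [hh_scan, hh_conv, add_zero, zero_add]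
  · apply prem_two
    intro a b
    change hh M F (conv M p β) (a + 0) (b + dv M p β) =
      hh M F (conv M p β) (a + fc M p β) (b + 0)
    rw [hh_conv, hh_conv, add_zero, add_zero]
    cases β with
    | true =>
      simp only [hc, dv, fc]
      rw [Nat.add_div_right _ (M.hpi p)]
      have e : M.pi p ∣ b + M.pi p ↔ M.pi p ∣ b := Nat.dvd_add_self_right
      simp only [e]
      split_ifs
      · congr 1
        rw [Nat.mul_succ]
        omega
      · rfl
    | false =>
      simp only [hc, dv, fc]
      congr 1
      ring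
  · unfold t4
    rcases hq : M.nxt p β with _ | q
    · simp only
      apply prem_right_zero
      intro a
      rw [hh_conv]
      cases β with
      | true => simp [hc, hq, hh_none]
      | false => simp [hc, hq, hh_none]
    · simp only
      apply prem_right
      intro a
      rw [add_zero, hh_start, hh_conv]
      cases β with
      | true => simp [hc, hq]
      | false => simp [hc, hq]

theorem genA_conc {p : Fin M.k} {n : ℕ} (h : ev F (genA (hh M F)) (conc M p n) = 0) :
    M.Halts (some p) n := by
  have h1 := concl _ h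
  rw [hh_start] at h1
  by_contra hn
  unfold chi at h1
  rw [if_neg hn] at h1
  exact one_ne_zero h1

end values

/-! ## The equality problem -/

theorem validM_iff (F : Type u) [Field F] [CharZero F] {n : ℕ} (hn : 3 ≤ n) (p : Fin M.k)
    (m : ℕ) : ValidM F n (prem M, conc M p m) ↔ M.Halts (some p) m := by
  constructor
  · intro h
    refine genA_conc M F (h (AA (hh M F)) ?_ (genA (hh M F)) (fun f hf => genA_prem M F hf))
    intro f hf x
    exact AA_ident _ (IsId.three hn hf) x
  · intro h A _ _ _ _ _ x hx
    exact derive_conc M hx h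

theorem validS_iff (F : Type u) [Field F] {n : ℕ} (hn : 6 ≤ n) (p : Fin M.k)
    (m : ℕ) : ValidS F n (prem M, conc M p m) ↔ M.Halts (some p) m := by
  constructor
  · intro h
    exact genA_conc M F (h (AA (hh M F)) (AA_std _ hn) (genA (hh M F))
      (fun f hf => genA_prem M F hf))
  · intro h A _ _ _ _ _ x hx
    exact derive_conc M hx h

theorem conc_computable (p : Fin M.k) : Computable (conc M p) := by
  have h1 : Primrec (fun n : ℕ => (((List.range n).map (fun _ => 1)) ++
      ([lt (scan M p 0)] ++ [3]) : List ℕ)) :=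
    Primrec.list_append.comp (Primrec.list_map Primrec.list_range (Primrec.const 1).to₂)
      (Primrec.const _)
  have h2 : Primrec (fun n : ℕ => ([(((1 : ℕ), (0 : ℕ), (0 : ℕ)), ((0 : ℕ),
      (((List.range n).map (fun _ => 1)) ++ ([lt (scan M p 0)] ++ [3]) : List ℕ)))] : Poly)) :=
    Primrec.list_cons.comp ((Primrec.const _).pair ((Primrec.const _).pair h1)) (Primrec.const _)
  refine h2.to_comp.of_eq ?_
  intro n
  unfold conc mon bmc
  simp [toWord]

end

theorem undecidableM (F : Type u) [Field F] [CharZero F] {n : ℕ} (hn : 3 ≤ n) :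
    ∃ U : List Poly, ¬ ComputablePred (fun f : Poly => ValidM F n (U, f)) := by
  obtain ⟨M, p0, N, hN, h⟩ := exists_mach
  refine ⟨prem M, fun hc => h ?_⟩
  refine ComputablePred.computable_of_manyOneReducible ⟨fun n => conc M p0 (N n),
    (conc_computable M p0).comp hN, fun m => ?_⟩ hc
  exact (validM_iff M F hn p0 (N m)).symm

theorem undecidableS (F : Type u) [Field F] {n : ℕ} (hn : 6 ≤ n) :
    ∃ U : List Poly, ¬ ComputablePred (fun f : Poly => ValidS F n (U, f)) := by
  obtain ⟨M, p0, N, hN, h⟩ := exists_mach
  refine ⟨prem M, fun hc => h ?_⟩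
  refine ComputablePred.computable_of_manyOneReducible ⟨fun n => conc M p0 (N n),
    (conc_computable M p0).comp hN, fun m => ?_⟩ hc
  exact (validS_iff M F hn p0 (N m)).symm

theorem uniform {V : QuasiId → Prop} {U : List Poly}
    (h : ¬ ComputablePred (fun f : Poly => V (U, f))) : ¬ ComputablePred V := by
  intro hc
  refine h ?_
  refine ComputablePred.computable_of_manyOneReducible ⟨fun f => (U, f),
    ((Primrec.const U).pair Primrec.id).to_comp, fun m => Iff.rfl⟩ hc

end Pool.Agent.Hp6.EQ
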